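import Pool.Agent.E8helper30.MC.Stm

/-!
# MC (helper30), piece FRC: frames in cyclic groups
-/

set_option autoImplicit false

namespace Pool.Agent.E8helper69.MC

open Pool.Agent.E8helper30.MC

open scoped Classical in
theorem t_FRC : S_FRC := by
  intro n t ht hn
  have hn0 : n ≠ 0 := by omega
  have : NeZero n := ⟨hn0⟩
  have key : ∀ a : ℤ, -(t : ℤ) < a → a < t → ((a : ℤ) : ZMod n).valMinAbs = a := by
    intro a h1 h2
    rw [ZMod.valMinAbs_spec]
    refine ⟨rfl, ?_, ?_⟩ <;> omega
  let I : Finset (ZMod n) := (Finset.range t).image fun a => ((a : ℕ) : ZMod n)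
  let D : Finset (ZMod n) := (Finset.Ioo (-(t : ℤ)) t).image fun a => ((a : ℤ) : ZMod n)
  let X : Finset (ZMod n) := (Finset.range ((n - 1) / t + 1)).image fun q => ((q * t : ℕ) : ZMod n)
  have hI : ∀ g, g ∈ I ↔ ∃ a : ℤ, 0 ≤ a ∧ a < t ∧ g = (a : ZMod n) := by
    intro g
    constructor
    · intro hg
      obtain ⟨a, ha, rfl⟩ := Finset.mem_image.1 hg
      rw [Finset.mem_range] at ha
      exact ⟨a, by omega, by omega, by push_cast; rfl⟩
    · rintro ⟨a, h1, h2, rfl⟩
      obtain ⟨b, rfl⟩ := Int.eq_ofNat_of_zero_le h1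
      exact Finset.mem_image.2 ⟨b, Finset.mem_range.2 (by omega), by push_cast; rfl⟩
  have hD : ∀ g, g ∈ D ↔ ∃ a : ℤ, -(t : ℤ) < a ∧ a < t ∧ g = (a : ZMod n) := by
    intro g
    constructor
    · intro hg
      obtain ⟨a, ha, rfl⟩ := Finset.mem_image.1 hg
      rw [Finset.mem_Ioo] at ha
      exact ⟨a, ha.1, ha.2, rfl⟩
    · rintro ⟨a, h1, h2, rfl⟩
      exact Finset.mem_image.2 ⟨a, Finset.mem_Ioo.2 ⟨h1, h2⟩, rfl⟩
  have hIc : I.card = t := by
    have : I.card = (Finset.range t).card := by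
      refine Finset.card_image_of_injOn ?_
      intro a ha b hb hab
      rw [Finset.mem_coe, Finset.mem_range] at ha hb
      have h1 := key a (by omega) (by omega)
      have h2 := key b (by omega) (by omega)
      push_cast at h1 h2
      have h3 : ((a : ℕ) : ZMod n) = ((b : ℕ) : ZMod n) := hab
      rw [h3, h2] at h1
      omega
    rw [this, Finset.card_range]
  have hDc : D.card ≤ 2 * t := by
    refine Finset.card_image_le.trans ?_
    rw [Int.card_Ioo]
    omega
  refine ⟨I, D, X, fun g => g.valMinAbs, t, ⟨?_, ?_, ?_, ?_⟩, hIc.ge, by omega, ?_, ?_⟩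
  · intro g hg
    obtain ⟨a, h1, h2, rfl⟩ := (hI g).1 hg
    have := key a (by omega) h2
    simp only [this]
    exact ⟨h1, h2⟩
  · intro g hg w hw
    obtain ⟨a, h1, h2, rfl⟩ := (hI g).1 hg
    obtain ⟨b, h3, h4, h5⟩ := (hI _).1 hw
    have hwe : w = ((a - b : ℤ) : ZMod n) := by
      push_cast
      rw [← h5]
      ring
    have e1 := key a (by omega) h2
    have e2 := key (a - b) (by omega) (by omega)
    refine ⟨(hD w).2 ⟨a - b, by omega, by omega, hwe⟩, ?_⟩
    simp only [hwe, e1, e2]
    omega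
  · intro g hg w hw h6 h7
    obtain ⟨a, h1, h2, rfl⟩ := (hI g).1 hg
    obtain ⟨d, h3, h4, rfl⟩ := (hD w).1 hw
    have e1 := key a (by omega) h2
    have e2 := key d h3 h4
    simp only [e1, e2] at h6 h7
    exact (hI _).2 ⟨a - d, by omega, by omega, by push_cast; rfl⟩
  · rw [hIc]
    exact hDc
  · intro g
    have hv := ZMod.val_lt g
    refine ⟨((g.val / t * t : ℕ) : ZMod n), Finset.mem_image.2 ⟨g.val / t, ?_, rfl⟩, ?_⟩
    · rw [Finset.mem_range]
      have : g.val / t ≤ (n - 1) / t := Nat.div_le_div_right (by omega)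
      omega
    · refine (hI _).2 ⟨((g.val % t : ℕ) : ℤ), by omega, ?_, ?_⟩
      · have := Nat.mod_lt g.val (show 0 < t by omega)
        exact_mod_cast this
      · have h1 : ((g.val : ℕ) : ZMod n) = g := ZMod.natCast_zmod_val g
        have h2 : g.val = g.val / t * t + g.val % t := (Nat.div_add_mod' g.val t).symm
        have h3 := congrArg (fun k : ℕ => (k : ZMod n)) h2
        simp only [h1, Nat.cast_add] at h3
        rw [sub_eq_iff_eq_add, Int.cast_natCast, add_comm]
        exact h3
  · have h1 : X.card ≤ (n - 1) / t + 1 := Finset.card_image_le.trans (Finset.card_range _).le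
    calc X.card * I.card ≤ ((n - 1) / t + 1) * t := by
          rw [hIc]; exact Nat.mul_le_mul_right t h1
      _ = (n - 1) / t * t + t := by ring
      _ ≤ (n - 1) + t := Nat.add_le_add_right (Nat.div_mul_le_self _ _) _
      _ ≤ 2 * n := by omega

end Pool.Agent.E8helper69.MC
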